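import Pool.Agent.Lib.MP_f77c7f_co.H25Cantor

/-!
# Greedy sets made of a head and of blocks of two alternating types
-/

namespace Pool.Agent.Lib.MP_f77c7f_co

/-- the data of the construction -/
structure Dat where
  n : ℤ
  V : ℤ
  k0 : ℕ
  S : Bool → Finset ℤ
  g : Bool → ℤ
  H : Finset ℤ
  Y : Finset ℤ
  n_pos : 0 < n
  n_le : n ≤ V
  big : 1000000 * V ≤ n * 3 ^ k0
  S_bd : ∀ i, ∀ z ∈ S i, 0 ≤ z ∧ z ≤ 3 * V
  g_bd : ∀ i, 0 ≤ g i ∧ g i ≤ 2 * V
  H_bd : ∀ y ∈ H, 0 ≤ y ∧ 2 * y ≤ n * 3 ^ k0 + 11 * V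
  Y_bd : ∀ y ∈ Y, 0 ≤ y
  S_free : ∀ i, ∀ a ∈ S i, ∀ b ∈ S i, ∀ c ∈ S i, n ∣ a + c - 2 * b → a = b ∧ c = b
  cross : ∀ i j x, ∃ z ∈ S i, ∃ y ∈ S j, n ∣ 2 * z - y - x
  thr : ∀ i x, ∃ θ, n ∣ x - θ ∧
    (θ ∈ S (!i) ∨ ∃ y ∈ S (!i), ∃ z ∈ S (!i), y < z ∧ θ = 2 * z - y) ∧
    ∃ z ∈ S i, ∃ y ∈ Y, n ∣ 2 * z + g i - y - x ∧ θ ≤ 2 * z + g i - y
  nohit : ∀ i, ∀ z ∈ S i, ∀ x ∈ S (!i), ∀ y ∈ H, n ∣ 2 * z + g i - y - x → 2 * z + g i - y ≤ x
  H_cov : ∀ y ∈ Y, ∀ m : ℤ, 0 ≤ m → 2 * (n * m) ≤ 3 * (n * 3 ^ k0) - 3 * V →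
    ∃ γ, y + n * γ ∈ H ∧ ∃ c ∈ Can k0, m = γ + 2 * c
  H_free : ∀ a ∈ H, ∀ b ∈ H, ∀ c ∈ H, a + c = 2 * b → a = b

/-- the type of the `t`-th block -/
def ty : ℕ → Bool
  | 0 => false
  | t + 1 => !ty t

namespace Dat

variable (D : Dat)

/-- the scale of the `t`-th block -/
def U (t : ℕ) : ℤ := D.n * 3 ^ (D.k0 + t)

/-- the lower order shift of the `t`-th block -/
def B : ℕ → ℤ
  | 0 => 14 * D.V
  | t + 1 => 2 * B t - D.g (ty t)

/-- the `t`-th block -/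
def Blk (t : ℕ) : Finset ℤ :=
  (D.S (ty t) ×ˢ Can (D.k0 + t)).image fun p => D.U t + D.B t + p.1 + D.n * p.2

/-- the head and the first `t` blocks -/
def XF : ℕ → Finset ℤ
  | 0 => D.H
  | t + 1 => XF t ∪ D.Blk t

/-- the whole set -/
def X : Set ℤ := {x | ∃ t, x ∈ D.XF t}

lemma mem_Blk {t : ℕ} {x : ℤ} : x ∈ D.Blk t ↔
    ∃ s ∈ D.S (ty t), ∃ c ∈ Can (D.k0 + t), x = D.U t + D.B t + s + D.n * c := by
  simp only [Blk, Finset.mem_image, Finset.mem_product, Prod.exists]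
  constructor
  · rintro ⟨s, c, ⟨hs, hc⟩, rfl⟩
    exact ⟨s, hs, c, hc, rfl⟩
  · rintro ⟨s, hs, c, hc, rfl⟩
    exact ⟨s, c, ⟨hs, hc⟩, rfl⟩

lemma mem_XF_succ {t : ℕ} {x : ℤ} : x ∈ D.XF (t + 1) ↔ x ∈ D.XF t ∨ x ∈ D.Blk t :=
  Finset.mem_union

lemma XF_mono {j t : ℕ} (h : j ≤ t) {x : ℤ} (hx : x ∈ D.XF j) : x ∈ D.XF t := by
  induction h with
  | refl => exact hx
  | step _ ih => exact D.mem_XF_succ.mpr (Or.inl ih)

lemma U_succ (t : ℕ) : D.U (t + 1) = 3 * D.U t := by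
  unfold U
  rw [← add_assoc, pow_succ]
  ring

lemma B_succ (t : ℕ) : D.B (t + 1) = 2 * D.B t - D.g (ty t) := rfl

lemma inv (t : ℕ) : 14 * D.V ≤ D.B t ∧ 10000 * D.B t ≤ D.U t ∧ 1000000 * D.V ≤ D.U t ∧
    (t : ℤ) ≤ D.U t := by
  have h1 := D.n_pos
  have h2 := D.n_le
  induction t with
  | zero =>
    have h3 : 1000000 * D.V ≤ D.U 0 := D.big
    have h4 : D.B 0 = 14 * D.V := rfl
    refine ⟨by omega, by omega, h3, by omega⟩
  | succ t ih =>
    have := D.g_bd (ty t)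
    rw [U_succ, B_succ]
    push_cast
    omega

lemma n_dvd_U (t : ℕ) : D.n ∣ D.U t := Dvd.intro _ rfl

lemma nc_bd {t : ℕ} {c : ℤ} (hc : c ∈ Can (D.k0 + t)) :
    0 ≤ D.n * c ∧ 2 * (D.n * c) + D.n ≤ D.U t := by
  have h := Can_bound hc
  have h1 := D.n_pos
  unfold U
  constructor
  · exact mul_nonneg h1.le h.1
  · nlinarith [h.2]

lemma Blk_bd {t : ℕ} {x : ℤ} (hx : x ∈ D.Blk t) :
    D.U t + D.B t ≤ x ∧ 2 * x + D.n ≤ 3 * D.U t + 2 * D.B t + 6 * D.V := by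
  obtain ⟨s, hs, c, hc, rfl⟩ := D.mem_Blk.mp hx
  have h1 := D.S_bd _ s hs
  have h2 := D.nc_bd hc
  omega

lemma XF_bd {t : ℕ} {x : ℤ} (hx : x ∈ D.XF t) : 0 ≤ x ∧ 2 * x ≤ D.U t + D.B t + 8 * D.V := by
  have h1 := D.n_pos
  have h2 := D.n_le
  induction t generalizing x with
  | zero =>
    have h3 := D.H_bd x hx
    have h4 : D.B 0 = 14 * D.V := rfl
    have h5 : D.U 0 = D.n * 3 ^ D.k0 := rfl
    omega
  | succ t ih =>
    have h3 := D.g_bd (ty t)
    have h4 := D.inv t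
    rw [U_succ, B_succ]
    rcases D.mem_XF_succ.mp hx with h | h
    · have := ih h; omega
    · have := D.Blk_bd h; omega

lemma XF_cases {t : ℕ} {x : ℤ} (hx : x ∈ D.XF t) : x ∈ D.H ∨ 1000000 * D.V ≤ x := by
  induction t with
  | zero => exact Or.inl hx
  | succ t ih =>
    rcases D.mem_XF_succ.mp hx with h | h
    · exact ih h
    · have h1 := D.Blk_bd h
      have h2 := D.inv t
      have := D.n_pos
      have := D.n_le
      right; omega

lemma mem_XF_of_lt {t j : ℕ} {x : ℤ} (hx : x ∈ D.XF j) (h : x < D.U t + D.B t) :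
    x ∈ D.XF t := by
  rcases le_total j t with hj | hj
  · exact D.XF_mono hj hx
  · induction hj with
    | refl => exact hx
    | @step j hj ih =>
      rcases D.mem_XF_succ.mp hx with h' | h'
      · exact ih h'
      · exfalso
        have h1 := (D.Blk_bd h').1
        have h2 : ∀ i, D.U t + D.B t ≤ D.U (t + i) + D.B (t + i) := by
          intro i
          induction i with
          | zero => exact le_rfl
          | succ i ih =>
            have := D.inv (t + i)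
            have := D.g_bd (ty (t + i))
            have := D.n_pos
            have := D.n_le
            rw [← add_assoc, U_succ, B_succ]
            omega
        obtain ⟨i, rfl⟩ := Nat.exists_eq_add_of_le hj
        have := h2 i
        omega

lemma Blk_free {t : ℕ} {x y z : ℤ} (hy : y ∈ D.Blk t) (hz : z ∈ D.Blk t) (hx : x ∈ D.Blk t)
    (h : y + x = 2 * z) : y = z := by
  obtain ⟨a, ha, c, hc, rfl⟩ := D.mem_Blk.mp hy
  obtain ⟨a', ha', c', hc', rfl⟩ := D.mem_Blk.mp hz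
  obtain ⟨a'', ha'', c'', hc'', rfl⟩ := D.mem_Blk.mp hx
  obtain ⟨e1, e2⟩ := D.S_free _ a ha a' ha' a'' ha'' ⟨2 * c' - c - c'', by linarith⟩
  subst e1 e2
  have h1 : D.n * (c + c'') = D.n * (2 * c') := by linarith
  rw [Can_free hc hc' hc'' (mul_left_cancel₀ D.n_pos.ne' h1)]

lemma XF_free (t : ℕ) {x y z : ℤ} (hy : y ∈ D.XF t) (hz : z ∈ D.XF t) (hx : x ∈ D.XF t)
    (hlt : y < z) (h : y + x = 2 * z) : False := by
  have hn := D.n_pos
  have hV := D.n_le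
  induction t generalizing x y z with
  | zero => have := D.H_free y hy z hz x hx h; omega
  | succ t ih =>
    have hi := D.inv t
    rcases D.mem_XF_succ.mp hx with hx' | hx'
    · have h1 := D.XF_bd hx'
      exact ih (D.mem_XF_of_lt hy (by omega)) (D.mem_XF_of_lt hz (by omega)) hx' hlt h
    have h1 := D.Blk_bd hx'
    rcases D.mem_XF_succ.mp hz with hz' | hz'
    · have h2 := D.XF_bd hz'
      have hy' : y ∈ D.XF t := D.mem_XF_of_lt hy (by omega)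
      have h3 := D.XF_bd hy'
      cases t with
      | zero =>
        have h4 := D.H_bd z hz'
        have h5 : D.B 0 = 14 * D.V := rfl
        have h6 : D.U 0 = D.n * 3 ^ D.k0 := rfl
        omega
      | succ t =>
        have hi' := D.inv t
        have hg := D.g_bd (ty t)
        have hU := D.U_succ t
        have hB := D.B_succ t
        rcases D.mem_XF_succ.mp hz' with hz'' | hz''
        · have := D.XF_bd hz''; omega
        · rcases D.XF_cases hy' with hH | hbig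
          · obtain ⟨a, ha, c, hc, rfl⟩ := D.mem_Blk.mp hz''
            obtain ⟨a', ha', c', hc', rfl⟩ := D.mem_Blk.mp hx'
            have b1 := D.nc_bd hc
            have b2 := D.nc_bd hc'
            obtain ⟨u, hu⟩ := D.n_dvd_U t
            have := D.nohit (ty t) a ha a' ha' y hH ⟨u + c' - 2 * c, by linarith⟩
            omega
          · omega
    · have h2 := D.Blk_bd hz'
      rcases D.mem_XF_succ.mp hy with hy' | hy'
      · have h3 := D.XF_bd hy'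
        omega
      · have := D.Blk_free hy' hz' hx' h
        omega

/-- `x` is in the set or is the last term of a progression with two terms in the set -/
def OK (x : ℤ) : Prop := x ∈ D.X ∨ ∃ y ∈ D.X, ∃ z ∈ D.X, y < z ∧ y + x = 2 * z

lemma Blk_sub {t : ℕ} {x : ℤ} (hx : x ∈ D.Blk t) : x ∈ D.X :=
  ⟨t + 1, D.mem_XF_succ.mpr (Or.inr hx)⟩

lemma alpha (t : ℕ) {x θ : ℤ}
    (hθ : θ ∈ D.S (ty t) ∨ ∃ y ∈ D.S (ty t), ∃ z ∈ D.S (ty t), y < z ∧ θ = 2 * z - y)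
    (hd : D.n ∣ x - (D.U t + D.B t) - θ) (h0 : D.U t + D.B t + θ ≤ x)
    (h1 : x < 2 * D.U t + D.B t) : D.OK x := by
  have hn := D.n_pos
  obtain ⟨m, hm⟩ := hd
  have hθ0 : 0 ≤ θ := by
    rcases hθ with h | ⟨y, hy, z, hz, hlt, rfl⟩
    · exact (D.S_bd _ _ h).1
    · have := D.S_bd _ _ hy; omega
  have hm0 : 0 ≤ m := by
    by_contra hc
    have : D.n * m < 0 := mul_neg_of_pos_of_neg hn (not_le.mp hc)
    omega
  have hm1 : m < 3 ^ (D.k0 + t) := by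
    have : D.n * m < D.n * 3 ^ (D.k0 + t) := by
      have : D.U t = D.n * 3 ^ (D.k0 + t) := rfl
      omega
    exact lt_of_mul_lt_mul_left this hn.le
  obtain ⟨c', hc', c, hc, hle, e⟩ := Can_ord hm0 hm1
  have hle' : D.n * c' ≤ D.n * c := mul_le_mul_of_nonneg_left hle hn.le
  have e' : D.n * m = 2 * (D.n * c) - D.n * c' := by rw [e]; ring
  rcases hθ with h | ⟨y, hy, z, hz, hlt, rfl⟩
  · rcases hle'.eq_or_lt with h2 | h2
    · left
      exact D.Blk_sub (D.mem_Blk.mpr ⟨θ, h, c, hc, by omega⟩)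
    · right
      exact ⟨_, D.Blk_sub (D.mem_Blk.mpr ⟨θ, h, c', hc', rfl⟩), _,
        D.Blk_sub (D.mem_Blk.mpr ⟨θ, h, c, hc, rfl⟩), by omega, by omega⟩
  · right
    exact ⟨_, D.Blk_sub (D.mem_Blk.mpr ⟨y, hy, c', hc', rfl⟩), _,
      D.Blk_sub (D.mem_Blk.mpr ⟨z, hz, c, hc, rfl⟩), by omega, by omega⟩

/-- `x = 2 z - y` with `z` in the pattern of type `i` and depth `j`, `y` before block `j` -/
def Cov (i : Bool) (j : ℕ) (x : ℤ) : Prop :=
  ∃ s ∈ D.S i, ∃ c ∈ Can (D.k0 + j), ∃ y ∈ D.XF j, x = 2 * (s + D.n * c) - y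

lemma Cov_low {i : Bool} {j : ℕ} {x : ℤ} (h : D.Cov i j x) : D.Cov i (j + 1) x := by
  obtain ⟨s, hs, c, hc, y, hy, e⟩ := h
  exact ⟨s, hs, c, Can_low hc, y, D.XF_mono (Nat.le_succ j) hy, e⟩

lemma Cov_high {i : Bool} {j : ℕ} {x : ℤ} (h : D.Cov i j (x - 2 * D.U j)) :
    D.Cov i (j + 1) x := by
  obtain ⟨s, hs, c, hc, y, hy, e⟩ := h
  refine ⟨s, hs, c + 3 ^ (D.k0 + j), Can_high hc, y, D.XF_mono (Nat.le_succ j) hy, ?_⟩
  unfold U at e
  linarith

lemma crossCov (i : Bool) (j : ℕ) {x : ℤ} (h0 : -3 * D.U j + 14 * D.V ≤ 2 * x)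
    (h1 : x ≤ -D.B j - 4 * D.V) :
    ∃ s ∈ D.S i, ∃ c ∈ Can (D.k0 + j), ∃ y ∈ D.Blk j, x = 2 * (s + D.n * c) - y := by
  have hn := D.n_pos
  have hV := D.n_le
  have hi := D.inv j
  obtain ⟨z, hz, y, hy, m, hm⟩ := D.cross i (ty j) (x + D.U j + D.B j)
  have b1 := D.S_bd _ _ hz
  have b2 := D.S_bd _ _ hy
  have hU : D.U j = D.n * 3 ^ (D.k0 + j) := rfl
  have m0 : 1 ≤ 2 * (-m) + 3 ^ (D.k0 + j) := by
    have : D.n * 1 ≤ D.n * (2 * (-m) + 3 ^ (D.k0 + j)) := by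
      have : D.n * (2 * (-m) + 3 ^ (D.k0 + j)) = -2 * (D.n * m) + D.U j := by rw [hU]; ring
      omega
    exact le_of_mul_le_mul_left this hn
  have m1 : -m < 3 ^ (D.k0 + j) := by
    have : D.n * (-m) < D.n * 3 ^ (D.k0 + j) := by
      have : D.n * (-m) = -(D.n * m) := by ring
      omega
    exact lt_of_mul_lt_mul_left this hn.le
  obtain ⟨c', hc', c, hc, e⟩ := Can_diff m0 m1
  refine ⟨z, hz, c, hc, _, D.mem_Blk.mpr ⟨y, hy, c', hc', rfl⟩, ?_⟩
  have : D.n * m = D.n * c' - 2 * (D.n * c) := by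
    have : m = c' - 2 * c := by omega
    rw [this]; ring
  omega

lemma cov (j : ℕ) : ∀ i, ∀ z ∈ D.S i, ∀ y ∈ D.Y, ∀ x, D.n ∣ 2 * z - y - x →
    -D.U j + 16 * D.V ≤ 2 * x → x < D.U j + (2 * z - y) → D.Cov i j x := by
  have hn := D.n_pos
  have hV := D.n_le
  induction j with
  | zero =>
    intro i z hz y hy x hd h0 h1
    obtain ⟨u, hu⟩ := hd
    have hU : D.U 0 = D.n * 3 ^ D.k0 := rfl
    have b1 := D.S_bd _ _ hz
    have b2 := D.Y_bd _ hy
    have e1 : D.n * (3 ^ D.k0 + u - 1) = D.U 0 + D.n * u - D.n := by rw [hU]; ring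
    have m0 : 0 ≤ 3 ^ D.k0 + u - 1 := by
      have : D.n * 0 < D.n * (3 ^ D.k0 + u) := by
        have : D.n * (3 ^ D.k0 + u) = D.U 0 + D.n * u := by rw [hU]; ring
        omega
      have := lt_of_mul_lt_mul_left this hn.le
      omega
    obtain ⟨γ, hγ, c, hc, e⟩ := D.H_cov y hy (3 ^ D.k0 + u - 1) m0 (by omega)
    obtain ⟨c', hc', e'⟩ := Can_refl hc
    refine ⟨z, hz, c', hc', _, hγ, ?_⟩
    have : D.n * u = D.n * γ - 2 * (D.n * c') := by
      have : u = γ - 2 * c' := by omega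
      rw [this]; ring
    omega
  | succ j ih =>
    intro i z hz y hy x hd h0 h1
    have hi := D.inv j
    rw [U_succ] at h0 h1
    by_cases a4 : 3 * D.U j + 16 * D.V ≤ 2 * x
    · refine D.Cov_high (ih i z hz y hy _ ?_ (by omega) (by omega))
      have : 2 * z - y - (x - 2 * D.U j) = (2 * z - y - x) + 2 * D.U j := by ring
      rw [this]
      exact dvd_add hd (Dvd.dvd.mul_left (D.n_dvd_U j) 2)
    by_cases a3 : D.U j + 14 * D.V ≤ 2 * x
    · obtain ⟨s, hs, c, hc, y', hy', e⟩ := D.crossCov i j (x := x - 2 * D.U j) (by omega) (by omega)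
      refine ⟨s, hs, c + 3 ^ (D.k0 + j), Can_high hc, y', D.mem_XF_succ.mpr (Or.inr hy'), ?_⟩
      unfold U at e
      linarith
    by_cases a2 : -D.U j + 16 * D.V ≤ 2 * x
    · obtain ⟨θ, -, hθ, z', hz', y', hy', hd', hle⟩ := D.thr i (x + D.g i)
      have hθ0 : 0 ≤ θ := by
        rcases hθ with h | ⟨y, hy, z, hz, hlt, rfl⟩
        · exact (D.S_bd _ _ h).1
        · have := D.S_bd _ _ hy; omega
      have hg := D.g_bd i
      refine D.Cov_low (ih i z' hz' y' hy' x ?_ a2 (by omega))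
      have : 2 * z' - y' - x = 2 * z' + D.g i - y' - (x + D.g i) := by ring
      rw [this]
      exact hd'
    · obtain ⟨s, hs, c, hc, y', hy', e⟩ := D.crossCov i j (x := x) (by omega) (by omega)
      exact ⟨s, hs, c, Can_low hc, y', D.mem_XF_succ.mpr (Or.inr hy'), e⟩

lemma ok_upto (t : ℕ) : ∀ x, D.U 0 + D.B 0 + 6 * D.V ≤ x → x < 2 * D.U t + D.B t → D.OK x := by
  have hn := D.n_pos
  have hV := D.n_le
  induction t with
  | zero =>
    intro x h0 h1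
    obtain ⟨θ, hd, hθ, -⟩ := D.thr true (x - (D.U 0 + D.B 0))
    have hθ1 : θ ≤ 6 * D.V := by
      rcases hθ with h | ⟨y, hy, z, hz, hlt, rfl⟩
      · have := D.S_bd _ _ h; omega
      · have := D.S_bd _ _ hy; have := D.S_bd _ _ hz; omega
    exact D.alpha 0 hθ hd (by omega) h1
  | succ t ih =>
    intro x h0 h1
    by_cases a : x < 2 * D.U t + D.B t
    · exact ih x h0 a
    obtain ⟨θ, hd, hθ, z, hz, y, hy, hd', hle⟩ := D.thr (ty t) (x - (D.U (t + 1) + D.B (t + 1)))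
    by_cases b : D.U (t + 1) + D.B (t + 1) + θ ≤ x
    · exact D.alpha (t + 1) hθ hd b h1
    have hi := D.inv t
    have hU := D.U_succ t
    have hB := D.B_succ t
    obtain ⟨s, hs, c, hc, y', hy', e⟩ := D.cov t (ty t) z hz y hy (x - 2 * (D.U t + D.B t))
      (by
        have : 2 * z - y - (x - 2 * (D.U t + D.B t)) =
            (2 * z + D.g (ty t) - y - (x - (D.U (t + 1) + D.B (t + 1)))) - D.U t := by
          rw [hU, hB]; ring
        rw [this]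
        exact dvd_sub hd' (D.n_dvd_U t)) (by omega) (by omega)
    have hb : D.U t + D.B t + s + D.n * c ∈ D.Blk t := D.mem_Blk.mpr ⟨s, hs, c, hc, rfl⟩
    have b1 := D.Blk_bd hb
    have b2 := D.XF_bd hy'
    exact Or.inr ⟨y', ⟨t, hy'⟩, _, D.Blk_sub hb, by omega, by omega⟩

theorem ok {x : ℤ} (h : D.U 0 + D.B 0 + 6 * D.V ≤ x) : D.OK x := by
  refine D.ok_upto (x.toNat + 1) x h ?_
  have := D.inv (x.toNat + 1)
  have := D.n_pos
  have := D.n_le
  push_cast at *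
  omega

theorem X_free {x y z : ℤ} (hy : y ∈ D.X) (hz : z ∈ D.X) (hx : x ∈ D.X) (hlt : y < z)
    (h : y + x = 2 * z) : False := by
  obtain ⟨a, ha⟩ := hy
  obtain ⟨b, hb⟩ := hz
  obtain ⟨c, hc⟩ := hx
  exact D.XF_free (a + b + c) (D.XF_mono (by omega) ha) (D.XF_mono (by omega) hb)
    (D.XF_mono (by omega) hc) hlt h

lemma card_Blk (t : ℕ) : (D.Blk t).card = (D.S (ty t)).card * 2 ^ (D.k0 + t) := by
  rw [Blk, Finset.card_image_of_injOn, Finset.card_product, card_Can]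
  rintro ⟨a, c⟩ hp ⟨a', c'⟩ hp' h
  obtain ⟨ha, -⟩ := Finset.mem_product.mp hp
  obtain ⟨ha', -⟩ := Finset.mem_product.mp hp'
  dsimp only at h ha ha'
  obtain ⟨e, -⟩ := D.S_free _ a ha a' ha' a' ha' ⟨c' - c, by linarith⟩
  subst e
  have h1 : D.n * c = D.n * c' := by linarith
  rw [mul_left_cancel₀ D.n_pos.ne' h1]

lemma card_XF_succ (t : ℕ) :
    (D.XF (t + 1)).card = (D.XF t).card + (D.S (ty t)).card * 2 ^ (D.k0 + t) := by
  rw [XF, Finset.card_union_of_disjoint, card_Blk]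
  rw [Finset.disjoint_left]
  intro x hx hx'
  have h1 := D.XF_bd hx
  have h2 := D.Blk_bd hx'
  have h3 := D.inv t
  have := D.n_pos
  have := D.n_le
  omega

lemma exists_large : ∃ u ∈ D.XF 1, D.U 0 + D.B 0 + 6 * D.V ≤ u := by
  obtain ⟨z, hz, -⟩ := D.cross (ty 0) (ty 0) 0
  obtain ⟨w, hw, e⟩ := Can_refl (zero_mem_Can (D.k0 + 0))
  refine ⟨_, D.mem_XF_succ.mpr (Or.inr (D.mem_Blk.mpr ⟨z, hz, w, hw, rfl⟩)), ?_⟩
  have h1 := D.S_bd _ _ hz
  have h2 := D.inv 0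
  have h3 : D.U 0 = 2 * (D.n * w) + D.n := by
    unfold U
    rw [← e]; ring
  have := D.n_pos
  have := D.n_le
  omega

end Dat

end Pool.Agent.Lib.MP_f77c7f_co
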