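import Mathlib

/-!
# Integers with ternary digits `0, 1`
-/

namespace Pool.Agent.Lib.MP_f77c7f_co

/-- the integers below `3 ^ k` whose ternary digits are `0` or `1` -/
def Can : ℕ → Finset ℤ
  | 0 => {0}
  | k + 1 => Can k ∪ (Can k).image (fun c => c + 3 ^ k)

lemma mem_Can_succ {k : ℕ} {x : ℤ} :
    x ∈ Can (k + 1) ↔ x ∈ Can k ∨ ∃ c ∈ Can k, x = c + 3 ^ k := by
  simp only [Can, Finset.mem_union, Finset.mem_image, eq_comm]

lemma mem_Can_zero {x : ℤ} : x ∈ Can 0 ↔ x = 0 := by simp [Can]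

lemma Can_low {k : ℕ} {x : ℤ} (h : x ∈ Can k) : x ∈ Can (k + 1) := mem_Can_succ.mpr (Or.inl h)

lemma Can_high {k : ℕ} {x : ℤ} (h : x ∈ Can k) : x + 3 ^ k ∈ Can (k + 1) :=
  mem_Can_succ.mpr (Or.inr ⟨x, h, rfl⟩)

lemma zero_mem_Can (k : ℕ) : (0 : ℤ) ∈ Can k := by
  induction k with
  | zero => exact mem_Can_zero.mpr rfl
  | succ k ih => exact Can_low ih

lemma Can_mono {j k : ℕ} (h : j ≤ k) {x : ℤ} (hx : x ∈ Can j) : x ∈ Can k := by
  induction h with
  | refl => exact hx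
  | step _ ih => exact Can_low ih

lemma Can_bound {k : ℕ} {x : ℤ} (h : x ∈ Can k) : 0 ≤ x ∧ 2 * x + 1 ≤ 3 ^ k := by
  induction k generalizing x with
  | zero => rw [mem_Can_zero] at h; subst h; simp
  | succ k ih =>
    have hp : (0 : ℤ) < 3 ^ k := by positivity
    rw [pow_succ]
    rcases mem_Can_succ.mp h with h | ⟨c, hc, rfl⟩
    · have := ih h; omega
    · have := ih hc; omega

lemma card_Can (k : ℕ) : (Can k).card = 2 ^ k := by
  induction k with
  | zero => simp [Can]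
  | succ k ih =>
    rw [Can, Finset.card_union_of_disjoint, Finset.card_image_of_injective _
      (add_left_injective _), ih, pow_succ]
    · ring
    · rw [Finset.disjoint_left]
      intro x hx hx'
      obtain ⟨c, hc, rfl⟩ := Finset.mem_image.mp hx'
      have h1 := Can_bound hx
      have h2 := Can_bound hc
      omega

lemma Can_free {k : ℕ} {a b c : ℤ} (ha : a ∈ Can k) (hb : b ∈ Can k) (hc : c ∈ Can k)
    (h : a + c = 2 * b) : a = b := by
  induction k generalizing a b c with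
  | zero => rw [mem_Can_zero] at ha hb; rw [ha, hb]
  | succ k ih =>
    rcases mem_Can_succ.mp ha with ka | ⟨a, ka, rfl⟩ <;>
    rcases mem_Can_succ.mp hb with kb | ⟨b, kb, rfl⟩ <;>
    rcases mem_Can_succ.mp hc with kc | ⟨c, kc, rfl⟩ <;>
    have h1 := Can_bound ka <;> have h2 := Can_bound kb <;> have h3 := Can_bound kc
    · exact ih ka kb kc h
    · omega
    · omega
    · omega
    · omega
    · omega
    · omega
    · have := ih ka kb kc (by omega); omega

lemma Can_refl {k : ℕ} {c : ℤ} (h : c ∈ Can k) : ∃ c' ∈ Can k, 2 * c + 2 * c' + 1 = 3 ^ k := by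
  induction k generalizing c with
  | zero => rw [mem_Can_zero] at h; exact ⟨0, zero_mem_Can 0, by simp [h]⟩
  | succ k ih =>
    rw [pow_succ]
    rcases mem_Can_succ.mp h with h | ⟨c, hc, rfl⟩
    · obtain ⟨c', hc', e⟩ := ih h
      exact ⟨c' + 3 ^ k, Can_high hc', by omega⟩
    · obtain ⟨c', hc', e⟩ := ih hc
      exact ⟨c', Can_low hc', by omega⟩

lemma Can_sum {k : ℕ} {m : ℤ} (h0 : 0 ≤ m) (h1 : 2 * m + 3 ≤ 3 * 3 ^ k) :
    ∃ c' ∈ Can k, ∃ c ∈ Can k, m = c' + 2 * c := by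
  induction k generalizing m with
  | zero => exact ⟨0, zero_mem_Can 0, 0, zero_mem_Can 0, by simp at h1; omega⟩
  | succ k ih =>
    have hp : (0 : ℤ) < 3 ^ k := by positivity
    rw [pow_succ] at h1
    by_cases a1 : m < 3 ^ k
    · obtain ⟨c', hc', c, hc, e⟩ := ih h0 (by omega)
      exact ⟨c', Can_low hc', c, Can_low hc, e⟩
    by_cases a2 : m < 2 * 3 ^ k
    · obtain ⟨c', hc', c, hc, e⟩ := ih (m := m - 3 ^ k) (by omega) (by omega)
      exact ⟨_, Can_high hc', c, Can_low hc, by omega⟩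
    by_cases a3 : m < 3 * 3 ^ k
    · obtain ⟨c', hc', c, hc, e⟩ := ih (m := m - 2 * 3 ^ k) (by omega) (by omega)
      exact ⟨c', Can_low hc', _, Can_high hc, by omega⟩
    · obtain ⟨c', hc', c, hc, e⟩ := ih (m := m - 3 * 3 ^ k) (by omega) (by omega)
      exact ⟨_, Can_high hc', _, Can_high hc, by omega⟩

lemma Can_diff {k : ℕ} {m : ℤ} (h0 : 1 ≤ 2 * m + 3 ^ k) (h1 : m < 3 ^ k) :
    ∃ c' ∈ Can k, ∃ c ∈ Can k, m = 2 * c - c' := by
  obtain ⟨w, -, hw⟩ := Can_refl (zero_mem_Can k)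
  obtain ⟨c', hc', c, hc, e⟩ := Can_sum (k := k) (m := m + w) (by omega) (by omega)
  obtain ⟨d, hd, e'⟩ := Can_refl hc'
  exact ⟨d, hd, c, hc, by omega⟩

lemma Can_ord {k : ℕ} {m : ℤ} (h0 : 0 ≤ m) (h1 : m < 3 ^ k) :
    ∃ c' ∈ Can k, ∃ c ∈ Can k, c' ≤ c ∧ m = 2 * c - c' := by
  induction k generalizing m with
  | zero => exact ⟨0, zero_mem_Can 0, 0, zero_mem_Can 0, le_rfl, by simp at h1; omega⟩
  | succ k ih =>
    rw [pow_succ] at h1
    by_cases a1 : m < 3 ^ k
    · obtain ⟨c', hc', c, hc, hle, e⟩ := ih h0 a1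
      exact ⟨c', Can_low hc', c, Can_low hc, hle, e⟩
    by_cases a2 : m < 2 * 3 ^ k
    · obtain ⟨c', hc', c, hc, hle, e⟩ := ih (m := m - 3 ^ k) (by omega) (by omega)
      exact ⟨_, Can_high hc', _, Can_high hc, by omega, by omega⟩
    · obtain ⟨c', hc', c, hc, hle, e⟩ := ih (m := m - 2 * 3 ^ k) (by omega) (by omega)
      have := Can_bound hc
      have := Can_bound hc'
      exact ⟨c', Can_low hc', _, Can_high hc, by omega, by omega⟩

lemma Can_add {j k : ℕ} {c c' : ℤ} (hc : c ∈ Can j) (hc' : c' ∈ Can k) :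
    c + 3 ^ j * c' ∈ Can (j + k) := by
  induction k generalizing c' with
  | zero => rw [mem_Can_zero] at hc'; simpa [hc'] using hc
  | succ k ih =>
    rcases mem_Can_succ.mp hc' with h | ⟨d, hd, rfl⟩
    · exact Can_low (ih h)
    · have := Can_high (ih hd)
      rw [pow_add] at this
      have e : c + 3 ^ j * (d + 3 ^ k) = c + 3 ^ j * d + 3 ^ j * 3 ^ k := by ring
      rw [e]
      exact this

attribute [irreducible] Can

lemma Can_cast {j k : ℕ} (h : j = k) {x : ℤ} (hx : x ∈ Can j) : x ∈ Can k := h ▸ hx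

end Pool.Agent.Lib.MP_f77c7f_co
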