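import Pool.Agent.Lib.MP_f77c7f_co.H25Data

/-!
# Finite checks on the data
-/

namespace Pool.Agent.Lib.MP_f77c7f_co

lemma SL_bd (i : Bool) : ∀ z ∈ SL i, z ≤ 3 * VV := by
  cases i <;> decide +kernel

lemma YL_bd : ∀ y ∈ YL, y ≤ 549 * VV := by
  decide +kernel

lemma SL_nodup (i : Bool) : (SL i).Nodup := by
  cases i <;> decide +kernel

lemma SL_len (i : Bool) : (SL i).length = 50 + i.toNat := by
  cases i <;> decide +kernel

lemma YL_len : YL.length = 76 := by
  decide +kernel

lemma gg_bd (i : Bool) : gg i ≤ 2 * VV := by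
  cases i <;> decide +kernel

lemma MK_ok (i : Bool) : ∀ x ∈ SL i, (MK i).testBit (x % 549) = true := by
  cases i <;> decide +kernel

lemma getD_mem {l : List ℕ} {k n : ℕ} (hl : l.length = n) (hk : k < n) : l.getD k 0 ∈ l := by
  rw [List.getD_eq_getElem _ _ (hl ▸ hk)]
  exact List.getElem_mem _

/-- the patterns have no progression modulo `549` -/
def cFree (i : Bool) : Bool :=
  (SL i).all fun a => (SL i).all fun b =>
    !((MK i).testBit ((2 * b + 549 * VV - a) % 549)) || (SL i).all fun c =>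
      !((a + c) % 549 == (2 * b) % 549) || (a == b && c == b)

lemma cFree_ok (i : Bool) : cFree i = true := by
  cases i <;> decide +kernel

lemma SL_free (i : Bool) {a b c : ℕ} (ha : a ∈ SL i) (hb : b ∈ SL i) (hc : c ∈ SL i)
    (h : (a + c) % 549 = (2 * b) % 549) : a = b ∧ c = b := by
  have h1 := List.all_eq_true.mp (List.all_eq_true.mp (cFree_ok i) a ha) b hb
  have h2 : (2 * b + 549 * VV - a) % 549 = c % 549 := by
    have := SL_bd i a ha
    omega
  rw [h2, MK_ok i c hc] at h1
  have h3 := List.all_eq_true.mp (by simpa only [Bool.not_true, Bool.false_or] using h1) c hc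
  simpa [h] using h3

/-- cross covering -/
def cCross (i : Bool) : Bool :=
  (List.range 549).all fun r =>
    let w := (TC i).getD r 0
    decide (w / 64 < 50 + i.toNat) && decide (w % 64 < 50 + (!i).toNat) &&
      (2 * (SL i).getD (w / 64) 0) % 549 == ((SL (!i)).getD (w % 64) 0 + r) % 549

lemma cCross_ok (i : Bool) : cCross i = true := by
  cases i <;> decide +kernel

lemma SL_cross (i : Bool) {r : ℕ} (hr : r < 549) :
    ∃ z ∈ SL i, ∃ y ∈ SL (!i), (2 * z) % 549 = (y + r) % 549 := by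
  have h := List.all_eq_true.mp (cCross_ok i) r (List.mem_range.mpr hr)
  simp only [Bool.and_eq_true, decide_eq_true_eq, beq_iff_eq] at h
  exact ⟨_, getD_mem (SL_len _) h.1.1, _, getD_mem (SL_len _) h.1.2, h.2⟩

/-- the head does not reach the next block -/
def cHit (i : Bool) : Bool :=
  (SL i).all fun z => YL.all fun y =>
    !((MK (!i)).testBit ((2 * z + gg i + 549 * VV - y) % 549)) || (SL (!i)).all fun x =>
      !((2 * z + gg i) % 549 == (y + x) % 549) || decide (2 * z + gg i ≤ x + y)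

lemma cHit_ok (i : Bool) : cHit i = true := by
  cases i <;> decide +kernel

lemma SL_hit (i : Bool) {z y x : ℕ} (hz : z ∈ SL i) (hy : y ∈ YL) (hx : x ∈ SL (!i))
    (h : (2 * z + gg i) % 549 = (y + x) % 549) : 2 * z + gg i ≤ x + y := by
  have h1 := List.all_eq_true.mp (List.all_eq_true.mp (cHit_ok i) z hz) y hy
  have h2 : (2 * z + gg i + 549 * VV - y) % 549 = x % 549 := by
    have := YL_bd y hy
    omega
  rw [h2, MK_ok _ x hx] at h1
  have h3 := List.all_eq_true.mp (by simpa only [Bool.not_true, Bool.false_or] using h1) x hx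
  simpa [h] using h3

/-- thresholds -/
def cThr (i : Bool) : Bool :=
  (List.range 549).all fun r =>
    let w := (TB i).getD r 0
    let y' := (SL (!i)).getD (w / 524288) 0
    let z' := (SL (!i)).getD (w / 8192 % 64) 0
    let z := (SL i).getD (w / 128 % 64) 0
    let y := YL.getD (w % 128) 0
    decide (w / 524288 < 50 + (!i).toNat) && decide (w / 8192 % 64 < 50 + (!i).toNat) &&
      decide (w / 128 % 64 < 50 + i.toNat) && decide (w % 128 < 76) && decide (y' ≤ z') &&
      (2 * z') % 549 == (r + y') % 549 && (2 * z + gg i) % 549 == (r + y) % 549 &&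
      decide (2 * z' + y ≤ 2 * z + gg i + y')

lemma cThr_ok (i : Bool) : cThr i = true := by
  cases i <;> decide +kernel

lemma SL_thr (i : Bool) {r : ℕ} (hr : r < 549) :
    ∃ y' ∈ SL (!i), ∃ z' ∈ SL (!i), ∃ z ∈ SL i, ∃ y ∈ YL, y' ≤ z' ∧
      (2 * z') % 549 = (r + y') % 549 ∧ (2 * z + gg i) % 549 = (r + y) % 549 ∧
      2 * z' + y ≤ 2 * z + gg i + y' := by
  have h := List.all_eq_true.mp (cThr_ok i) r (List.mem_range.mpr hr)
  simp only [Bool.and_eq_true, decide_eq_true_eq, beq_iff_eq] at h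
  obtain ⟨⟨⟨⟨⟨⟨⟨h1, h2⟩, h3⟩, h4⟩, h5⟩, h6⟩, h7⟩, h8⟩ := h
  exact ⟨_, getD_mem (SL_len _) h1, _, getD_mem (SL_len _) h2, _, getD_mem (SL_len _) h3, _,
    getD_mem YL_len h4, h5, h6, h7, h8⟩

end Pool.Agent.Lib.MP_f77c7f_co
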