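import Pool.Agent.Lib.MP_f77c7f_co.H25Abs

/-!
# The increasing enumeration of the greedy set and its growth
-/

open Filter

namespace Pool.Agent.Lib.MP_f77c7f_co

namespace Dat

variable (D : Dat)

/-- membership of a natural number -/
def P (m : ℕ) : Prop := (m : ℤ) ∈ D.X

noncomputable instance decP : DecidablePred D.P := Classical.decPred _

/-- the increasing enumeration -/
noncomputable def a : ℕ → ℕ := Nat.nth D.P

/-- the generating set -/
noncomputable def A : Finset ℕ := (Finset.range (D.U 1 + D.B 1).toNat).filter D.P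

lemma X_nonneg {x : ℤ} (hx : x ∈ D.X) : 0 ≤ x := by
  obtain ⟨t, ht⟩ := hx
  exact (D.XF_bd ht).1

lemma P_toNat {x : ℤ} (hx : x ∈ D.X) : D.P x.toNat := by
  unfold P
  rwa [Int.toNat_of_nonneg (D.X_nonneg hx)]

lemma P_infinite : (Set.ofPred D.P).Infinite := by
  refine Set.infinite_of_forall_exists_gt fun m => ?_
  obtain ⟨z, hz, -⟩ := D.cross (ty (m + 1)) (ty (m + 1)) 0
  have hb := D.mem_Blk.mpr ⟨z, hz, 0, zero_mem_Can _, rfl⟩
  have h1 := D.Blk_bd hb
  have h2 := D.inv (m + 1)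
  have := D.n_pos
  have := D.n_le
  refine ⟨_, D.P_toNat (D.Blk_sub hb), ?_⟩
  push_cast at h2
  omega

lemma P_free : ThreeAPFree (Set.ofPred D.P) := by
  intro x hx y hy z hz h
  rcases lt_trichotomy x y with h1 | h1 | h1
  · exact (D.X_free hx hy hz (by omega) (by omega)).elim
  · exact h1
  · exact (D.X_free hz hy hx (by omega) (by omega)).elim

lemma count_eq (t N : ℕ) (h0 : D.U t + D.B t + 8 * D.V < 2 * N) (h1 : (N : ℤ) ≤ D.U t + D.B t) :
    Nat.count D.P N = (D.XF t).card := by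
  rw [Nat.count_eq_card_filter_range,
    ← Finset.card_image_of_injective _ (Nat.cast_injective (R := ℤ))]
  congr 1
  ext x
  simp only [Finset.mem_image, Finset.mem_filter, Finset.mem_range]
  constructor
  · rintro ⟨m, ⟨hm, j, hj⟩, rfl⟩
    exact D.mem_XF_of_lt hj (by omega)
  · intro hx
    have := D.XF_bd hx
    exact ⟨x.toNat, ⟨by omega, D.P_toNat ⟨t, hx⟩⟩, by omega⟩

lemma a_strictMono : StrictMono D.a := Nat.nth_strictMono D.P_infinite

lemma card_A : D.A.card = Nat.count D.P (D.U 1 + D.B 1).toNat :=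
  (Nat.count_eq_card_filter_range _ _).symm

lemma image_a : (Finset.range D.A.card).image D.a = D.A := by
  ext x
  rw [card_A]
  simp only [A, Finset.mem_image, Finset.mem_filter, Finset.mem_range]
  constructor
  · rintro ⟨i, hi, rfl⟩
    exact ⟨Nat.nth_lt_of_lt_count hi, Nat.nth_mem_of_infinite D.P_infinite i⟩
  · rintro ⟨h1, h2⟩
    exact ⟨_, Nat.count_strict_mono h2 h1, Nat.nth_count h2⟩

lemma A_free : ThreeAPFree (D.A : Set ℕ) :=
  D.P_free.mono fun _ hx => (Finset.mem_filter.mp hx).2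

lemma zero_mem_A (h : (0 : ℤ) ∈ D.H) : 0 ∈ D.A := by
  have h2 := D.inv 1
  have := D.n_pos
  have := D.n_le
  exact Finset.mem_filter.mpr ⟨Finset.mem_range.mpr (by omega), ⟨0, h⟩⟩

lemma greedy (k : ℕ) (hk : D.A.card ≤ k) :
    IsLeast {x | D.a (k - 1) < x ∧ ThreeAPFree (insert x (D.a '' Set.Iio k))} (D.a k) := by
  obtain ⟨u, hu, hu'⟩ := D.exists_large
  have hu1 := D.XF_bd hu
  have hi := D.inv 1
  have := D.n_pos
  have := D.n_le
  have hP := D.P_toNat ⟨1, hu⟩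
  have hc : Nat.count D.P u.toNat < D.A.card := by
    rw [card_A]
    exact Nat.count_strict_mono hP (by omega)
  obtain ⟨k, rfl⟩ : ∃ j, k = j + 1 := ⟨k - 1, by omega⟩
  have hle : u.toNat ≤ D.a k := by
    rw [← Nat.nth_count hP]
    exact D.a_strictMono.monotone (by omega)
  rw [Nat.add_sub_cancel]
  refine ⟨⟨D.a_strictMono (Nat.lt_succ_self k), D.P_free.mono ?_⟩, ?_⟩
  · rintro x (rfl | ⟨i, -, rfl⟩) <;> exact Nat.nth_mem_of_infinite D.P_infinite _
  · rintro x ⟨h1, h2⟩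
    by_contra hlt
    have hlt : x < D.a (k + 1) := not_le.mp hlt
    have hmem : ∀ y ∈ D.X, y < x → y.toNat ∈ insert x (D.a '' Set.Iio (k + 1)) := by
      intro y hy hyx
      have hy0 := D.X_nonneg hy
      have hyP := D.P_toNat hy
      refine Or.inr ⟨Nat.count D.P y.toNat, ?_, Nat.nth_count hyP⟩
      refine D.a_strictMono.lt_iff_lt.mp ?_
      rw [show D.a (Nat.count D.P y.toNat) = y.toNat from Nat.nth_count hyP]
      omega
    rcases D.ok (x := x) (by omega) with hx | ⟨y, hy, z, hz, hyz, e⟩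
    · exact absurd (Nat.le_nth_of_lt_nth_succ hlt hx) (not_le.mpr h1)
    · have hy0 := D.X_nonneg hy
      have := h2 (hmem y hy (by omega)) (hmem z hz (by omega)) (Set.mem_insert _ _) (by omega)
      omega

lemma a_lower (t : ℕ) : D.U t ≤ D.a (D.XF t).card := by
  have hi := D.inv t
  have := D.n_pos
  have := D.n_le
  rw [← D.count_eq t (D.U t + D.B t).toNat (by omega) (by omega)]
  have := Nat.le_nth_count D.P_infinite (D.U t + D.B t).toNat
  unfold a
  omega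

lemma a_upper (t k : ℕ) (hk : k < (D.XF t).card) : 2000 * (D.a k : ℤ) ≤ 1001 * D.U t := by
  have hi := D.inv t
  have := D.n_pos
  have := D.n_le
  rw [← D.count_eq t ((D.U t + D.B t + 8 * D.V) / 2 + 1).toNat (by omega) (by omega)] at hk
  have := Nat.nth_lt_of_lt_count hk
  unfold a
  omega

lemma ty_even (j : ℕ) : ty (2 * j) = false := by
  induction j with
  | zero => rfl
  | succ j ih => rw [show 2 * (j + 1) = 2 * j + 1 + 1 by ring, ty, ty, ih]; rfl

lemma card_even (hS : ∀ i, (D.S i).card = 50 + i.toNat) (j : ℕ) :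
    3 * (D.XF (2 * j)).card + 152 * 2 ^ D.k0 = 3 * (D.XF 0).card + 152 * 2 ^ (D.k0 + 2 * j) := by
  induction j with
  | zero => rfl
  | succ j ih =>
    have e1 : 2 ^ (D.k0 + (2 * j + 1)) = 2 * 2 ^ (D.k0 + 2 * j) := by ring
    have e2 : 2 ^ (D.k0 + (2 * j + 1 + 1)) = 4 * 2 ^ (D.k0 + 2 * j) := by ring
    rw [show 2 * (j + 1) = 2 * j + 1 + 1 by ring, card_XF_succ, card_XF_succ, hS, hS, ty,
      ty_even, e1, e2]
    simp only [Bool.not_false, Bool.toNat_true, Bool.toNat_false]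
    omega

lemma card_odd (hS : ∀ i, (D.S i).card = 50 + i.toNat) (j : ℕ) :
    3 * (D.XF (2 * j + 1)).card + 152 * 2 ^ D.k0 =
      3 * (D.XF 0).card + 151 * 2 ^ (D.k0 + (2 * j + 1)) := by
  have := D.card_even hS j
  rw [card_XF_succ, hS, ty_even, ← add_assoc, pow_succ]
  simp only [Bool.toNat_false]
  omega

end Dat

lemma rpow_two_pow (r : ℝ) (hr : 0 ≤ r) (k : ℕ) :
    (r * 2 ^ k) ^ Real.logb 2 3 = r ^ Real.logb 2 3 * 3 ^ k := by
  rw [Real.mul_rpow hr (by positivity), ← Real.rpow_natCast, ← Real.rpow_mul (by norm_num),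
    mul_comm (k : ℝ), Real.rpow_mul (by norm_num),
    Real.rpow_logb (by norm_num) (by norm_num) (by norm_num), Real.rpow_natCast]

lemma one_le_logb : 1 ≤ Real.logb 2 3 := by
  rw [Real.le_logb_iff_rpow_le (by norm_num) (by norm_num)]
  norm_num

lemma logb_le : Real.logb 2 3 ≤ 8 / 5 := by
  have h2 : 0 < Real.log 2 := Real.log_pos (by norm_num)
  rw [Real.logb, div_le_div_iff₀ h2 (by norm_num)]
  have h : Real.log (3 ^ 5) ≤ Real.log (2 ^ 8) := Real.log_le_log (by norm_num) (by norm_num)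
  rw [Real.log_pow, Real.log_pow] at h
  push_cast at h
  linarith

theorem Dat.growth (D : Dat) (hS : ∀ i, (D.S i).card = 50 + i.toNat) :
    ∃ u v : ℝ, 0 < u ∧ 2 * u < v ∧
      (∃ᶠ k : ℕ in atTop, (D.a k : ℝ) ≤ u * (k : ℝ) ^ Real.logb 2 3) ∧
      ∃ᶠ k : ℕ in atTop, v * (k : ℝ) ^ Real.logb 2 3 ≤ D.a k := by
  have hn : (0 : ℝ) < D.n := by exact_mod_cast D.n_pos
  have hc := one_le_logb
  have p1 : (0 : ℝ) < (757 / 15 : ℝ) ^ Real.logb 2 3 := by positivity
  have p2 : (0 : ℝ) < (758 / 15 : ℝ) ^ Real.logb 2 3 := by positivity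
  have hU : ∀ t, (D.U t : ℝ) = D.n * 3 ^ (D.k0 + t) := fun t => by simp [Dat.U]
  refine ⟨1001 / 2000 * D.n / (758 / 15 : ℝ) ^ Real.logb 2 3,
    D.n / (757 / 15 : ℝ) ^ Real.logb 2 3, by positivity, ?_, ?_, ?_⟩
  · have h1 : (758 / 15 : ℝ) ^ Real.logb 2 3 =
        (757 / 15 : ℝ) ^ Real.logb 2 3 * (758 / 757 : ℝ) ^ Real.logb 2 3 := by
      rw [← Real.mul_rpow (by norm_num) (by norm_num)]
      norm_num
    have h2 : (758 / 757 : ℝ) ≤ (758 / 757 : ℝ) ^ Real.logb 2 3 := by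
      conv_lhs => rw [← Real.rpow_one (758 / 757 : ℝ)]
      exact Real.rpow_le_rpow_of_exponent_le (by norm_num) hc
    rw [← mul_div_assoc, div_lt_div_iff₀ p2 p1, h1]
    have h3 := mul_pos hn p1
    nlinarith
  · rw [frequently_atTop]
    intro N
    obtain ⟨j, hj⟩ : ∃ j, j = N + 400 * 2 ^ D.k0 := ⟨_, rfl⟩
    have h1 := D.card_even hS j
    have h2 : D.k0 + 2 * j < 2 ^ (D.k0 + 2 * j) := Nat.lt_two_pow_self
    have h3 : 0 < 2 ^ D.k0 := by positivity
    refine ⟨(D.XF (2 * j)).card - 1, by omega, ?_⟩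
    have h4 : 758 * 2 ^ (D.k0 + 2 * j) ≤ 15 * ((D.XF (2 * j)).card - 1) := by omega
    have h5 : (758 / 15 : ℝ) * 2 ^ (D.k0 + 2 * j) ≤ (((D.XF (2 * j)).card - 1 : ℕ) : ℝ) := by
      have : ((758 * 2 ^ (D.k0 + 2 * j) : ℕ) : ℝ) ≤ ((15 * ((D.XF (2 * j)).card - 1) : ℕ) : ℝ) :=
        Nat.cast_le.mpr h4
      rw [Nat.cast_mul, Nat.cast_mul, Nat.cast_pow] at this
      norm_num at this ⊢
      linarith
    have h6 := Real.rpow_le_rpow (by positivity) h5 (zero_le_one.trans hc)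
    rw [rpow_two_pow _ (by norm_num)] at h6
    have h7 : (2000 : ℝ) * (D.a ((D.XF (2 * j)).card - 1) : ℝ) ≤ 1001 * D.U (2 * j) := by
      exact_mod_cast D.a_upper (2 * j) ((D.XF (2 * j)).card - 1) (by omega)
    rw [hU] at h7
    rw [div_mul_eq_mul_div, le_div_iff₀ p2]
    have h8 := mul_le_mul_of_nonneg_left h6 hn.le
    have h9 := mul_le_mul_of_nonneg_right h7 p2.le
    nlinarith
  · rw [frequently_atTop]
    intro N
    obtain ⟨j, hj⟩ : ∃ j, j = N + 8 * (D.XF 0).card + 400 * 2 ^ D.k0 := ⟨_, rfl⟩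
    have h1 := D.card_odd hS j
    have h2 : D.k0 + (2 * j + 1) < 2 ^ (D.k0 + (2 * j + 1)) := Nat.lt_two_pow_self
    refine ⟨(D.XF (2 * j + 1)).card, by omega, ?_⟩
    have h4 : 15 * (D.XF (2 * j + 1)).card ≤ 757 * 2 ^ (D.k0 + (2 * j + 1)) := by omega
    have h5 : ((D.XF (2 * j + 1)).card : ℝ) ≤ (757 / 15 : ℝ) * 2 ^ (D.k0 + (2 * j + 1)) := by
      have : ((15 * (D.XF (2 * j + 1)).card : ℕ) : ℝ) ≤
          ((757 * 2 ^ (D.k0 + (2 * j + 1)) : ℕ) : ℝ) := Nat.cast_le.mpr h4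
      rw [Nat.cast_mul, Nat.cast_mul, Nat.cast_pow] at this
      norm_num at this ⊢
      linarith
    have h6 := Real.rpow_le_rpow (by positivity) h5 (zero_le_one.trans hc)
    rw [rpow_two_pow _ (by norm_num)] at h6
    have h7 : (D.U (2 * j + 1) : ℝ) ≤ (D.a (D.XF (2 * j + 1)).card : ℝ) := by
      exact_mod_cast D.a_lower (2 * j + 1)
    rw [hU] at h7
    rw [div_mul_eq_mul_div, div_le_iff₀ p1]
    have h8 := mul_le_mul_of_nonneg_left h6 hn.le
    have h9 := mul_le_mul_of_nonneg_right h7 p1.le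
    nlinarith

end Pool.Agent.Lib.MP_f77c7f_co
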