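import Pool.Agent.Lib.MP_f77c7f_co.H25Cantor

/-!
# Sparse additive complements of the doubled Cantor set
-/

namespace Pool.Agent.Lib.MP_f77c7f_co

/-- the Cantor numbers as a list -/
def CL : ℕ → List ℕ
  | 0 => [0]
  | k + 1 => CL k ++ (CL k).map (fun c => c + 3 ^ k)

lemma CL_mem {k c : ℕ} (h : c ∈ CL k) : (c : ℤ) ∈ Can k := by
  induction k generalizing c with
  | zero =>
    have : c = 0 := by simpa [CL] using h
    subst this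
    exact zero_mem_Can 0
  | succ k ih =>
    rcases List.mem_append.mp h with h | h
    · exact Can_low (ih h)
    · obtain ⟨d, hd, rfl⟩ := List.mem_map.mp h
      have := Can_high (ih hd)
      push_cast
      exact this

/-- the normal digits of the three roles -/
def EL : ℕ → List ℕ
  | 0 => [0, 1, 14, 15, 41, 42, 64, 65, 92, 93, 102, 103, 132, 133, 217, 218]
  | 1 => [3, 7, 8, 17, 21, 22, 47, 48, 52, 64, 67, 84, 94, 95, 98, 105, 109, 118, 128, 135]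
  | _ => [8, 9, 22, 23, 49, 50, 72, 73, 100, 101, 110, 111, 140, 141, 225, 226]

/-- all digits of the three roles -/
def FL : ℕ → List ℕ
  | 0 => [0, 1, 4, 5, 12, 14, 15, 31, 41, 42, 44, 45, 64, 65, 92, 93, 102, 103, 105, 106, 132,
      133, 215, 217, 218]
  | 1 => [3, 4, 7, 8, 17, 18, 21, 22, 45, 47, 48, 52, 64, 67, 84, 94, 95, 98, 105, 109, 118,
      128, 135]
  | _ => [8, 9, 12, 13, 20, 22, 23, 39, 49, 50, 52, 53, 72, 73, 100, 101, 110, 111, 113, 114,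
      140, 141, 225, 226]

/-- the least digit of a role -/
def lam : ℕ → ℕ
  | 0 => 0
  | 1 => 3
  | _ => 8

/-- the role of the class `h` at level `l` -/
def role (l h : ℕ) : ℕ :=
  ([[0, 1, 0, 0, 0, 1, 2, 2, 0], [0, 2, 0, 0, 1, 2, 1, 0, 0], [0, 0, 0, 1, 2, 2, 0, 1, 0],
    [0, 1, 0, 0, 0, 2, 0, 0, 0]].getD (l % 4) []).getD h 0 % 3

lemma role_lt (l h : ℕ) : role l h < 3 := Nat.mod_lt _ (by norm_num)

lemma dig1 : ∀ r < 3, lam r ∈ EL r ∧ (∀ e ∈ EL r, e ∈ FL r) ∧ ∀ f ∈ FL r, lam r ≤ f ∧ f < 243 := by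
  decide +kernel

lemma dig2 : ∀ r < 3, ∀ a ∈ FL r, ∀ b ∈ FL r, ∀ c ∈ FL r,
    (a + c) % 243 = (2 * b) % 243 → a = b ∧ c = b := by
  decide +kernel

lemma dig3 : ∀ r < 3, ∀ m < 243, ∃ f ∈ FL r, ∃ c ∈ CL 5, f + 2 * c = lam r + m := by
  decide +kernel

lemma dig4 : ∀ r < 3, ∀ m < 243, ∃ e ∈ EL r, ∃ c ∈ CL 5,
    e + 2 * c = lam r + m ∨ e + 2 * c = lam r + m + 243 := by
  decide +kernel

lemma dig5 : ∀ a ∈ EL 0, ∀ b ∈ EL 1, ∀ c ∈ EL 2, ∀ κ < 3,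
    (a + c + κ) % 243 ≠ (2 * b + 1) % 243 := by
  decide +kernel

/-- the leading digit of the class `h` -/
def Lam (h : ℕ) : ℕ := [0, 2, 0, 3, 0, 3, 5, 2, 0].getD h 0

/-- the least element of the class `h` with `t` levels -/
def st : ℕ → ℕ → ℕ
  | 0, h => Lam h
  | t + 1, h => lam (role t h) + 243 * st t h

/-- the sparse complement of the class `h` with `t` levels -/
def Gp : ℕ → ℕ → ℤ → Prop
  | 0, h, g => ∃ c ∈ Can 13, g = Lam h + c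
  | t + 1, h, g => (∃ f ∈ FL (role t h), g = f + 243 * (st t h : ℤ)) ∨
      ∃ e ∈ EL (role t h), ∃ g', Gp t h g' ∧ g = e + 243 * g'

lemma st_succ (t h : ℕ) : (st (t + 1) h : ℤ) = lam (role t h) + 243 * (st t h : ℤ) := by
  rw [st]; push_cast; rfl

lemma Gp_st (t h : ℕ) : Gp t h (st t h) := by
  induction t with
  | zero => exact ⟨0, zero_mem_Can 13, by simp [st]⟩
  | succ t ih => exact Or.inr ⟨_, (dig1 _ (role_lt t h)).1, _, ih, st_succ t h⟩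

lemma Gp_dec {t h : ℕ} {g : ℤ} (hg : Gp (t + 1) h g) :
    ∃ d ∈ FL (role t h), ∃ g', Gp t h g' ∧ g = d + 243 * g' := by
  rcases hg with ⟨f, hf, e⟩ | ⟨e, he, g', hg', e'⟩
  · exact ⟨f, hf, _, Gp_st t h, e⟩
  · exact ⟨e, (dig1 _ (role_lt t h)).2.1 e he, g', hg', e'⟩

lemma Gp_bd {t h : ℕ} {g : ℤ} (hg : Gp t h g) :
    (st t h : ℤ) ≤ g ∧ 2 * g + 2 ≤ 243 ^ t * (2 * Lam h + 3 ^ 13 + 1) := by
  induction t generalizing g with
  | zero =>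
    obtain ⟨c, hc, rfl⟩ := hg
    have := Can_bound hc
    rw [st, pow_zero, one_mul]
    omega
  | succ t ih =>
    obtain ⟨d, hd, g', hg', rfl⟩ := Gp_dec hg
    have h1 := ih hg'
    have h2 := (dig1 _ (role_lt t h)).2.2 d hd
    rw [st_succ, pow_succ, mul_comm _ (243 : ℤ), mul_assoc]
    generalize (243 : ℤ) ^ t * (2 * Lam h + 3 ^ 13 + 1) = W at h1 ⊢
    omega

lemma Gp_free {t h : ℕ} {a b c : ℤ} (ha : Gp t h a) (hb : Gp t h b) (hc : Gp t h c)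
    (e : a + c = 2 * b) : a = b := by
  induction t generalizing a b c with
  | zero =>
    obtain ⟨a, ka, rfl⟩ := ha
    obtain ⟨b, kb, rfl⟩ := hb
    obtain ⟨c, kc, rfl⟩ := hc
    rw [Can_free ka kb kc (by omega)]
  | succ t ih =>
    obtain ⟨d₁, k₁, a, ka, rfl⟩ := Gp_dec ha
    obtain ⟨d₂, k₂, b, kb, rfl⟩ := Gp_dec hb
    obtain ⟨d₃, k₃, c, kc, rfl⟩ := Gp_dec hc
    obtain ⟨e₁, e₂⟩ := dig2 _ (role_lt t h) d₁ k₁ d₂ k₂ d₃ k₃ (by omega)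
    subst e₁ e₂
    rw [ih ka kb kc (by omega)]

lemma Gp_cov (t h : ℕ) {m : ℤ} (h0 : 0 ≤ m) (h1 : 2 * m ≤ 243 ^ t * (3 * 3 ^ 13 - 3)) :
    ∃ g, Gp t h g ∧ ∃ c ∈ Can (5 * t + 13), g + 2 * c = st t h + m := by
  induction t generalizing m with
  | zero =>
    rw [pow_zero, one_mul] at h1
    obtain ⟨c', hc', c, hc, e⟩ := Can_sum (k := 13) h0 (by omega)
    exact ⟨_, ⟨c', hc', rfl⟩, c, hc, by rw [st]; omega⟩
  | succ t ih =>
    rw [pow_succ, mul_comm _ (243 : ℤ), mul_assoc] at h1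
    have hk : 5 * (t + 1) + 13 = 5 + (5 * t + 13) := by ring
    rw [hk, st_succ]
    by_cases a : m < 243
    · obtain ⟨f, hf, c, hc, e⟩ := dig3 _ (role_lt t h) m.toNat (by omega)
      exact ⟨_, Or.inl ⟨f, hf, rfl⟩, c, Can_mono (by omega) (CL_mem hc), by omega⟩
    · obtain ⟨e, he, c, hc, e'⟩ := dig4 _ (role_lt t h) (m % 243).toNat (by omega)
      generalize (243 : ℤ) ^ t * (3 * 3 ^ 13 - 3) = W at h1 ih
      rcases e' with e' | e'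
      · obtain ⟨g, hg, c', hc', e''⟩ := ih (m := m / 243) (by omega) (by omega)
        exact ⟨_, Or.inr ⟨e, he, g, hg, rfl⟩, _, Can_add (CL_mem hc) hc', by omega⟩
      · obtain ⟨g, hg, c', hc', e''⟩ := ih (m := m / 243 - 1) (by omega) (by omega)
        exact ⟨_, Or.inr ⟨e, he, g, hg, rfl⟩, _, Can_add (CL_mem hc) hc', by omega⟩

/-- the level `l` excludes progressions in the classes `h₁, h₂, h₃` -/
def kill (h₁ h₂ h₃ l : ℕ) : Bool :=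
  role l h₂ == 1 && ((role l h₁ == 0 && role l h₃ == 2) || (role l h₁ == 2 && role l h₃ == 0))

/-- the number of such levels below `t` -/
def nkill (h₁ h₂ h₃ : ℕ) : ℕ → ℕ
  | 0 => 0
  | t + 1 => nkill h₁ h₂ h₃ t + if kill h₁ h₂ h₃ t then 1 else 0

lemma Gp_dec' {t h b : ℕ} {g : ℤ} (hg : Gp (t + 1) h g) (hb : b = 0 → g = st (t + 1) h) :
    ∃ (d b' : ℕ) (g' : ℤ), g = d + 243 * g' ∧ d < 243 ∧ Gp t h g' ∧ (b' = 0 → g' = st t h) ∧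
      b' ≤ b ∧ (d ∈ EL (role t h) ∨ b' < b) := by
  have h1 := dig1 _ (role_lt t h)
  by_cases h0 : b = 0
  · exact ⟨_, 0, _, (hb h0).trans (st_succ t h), (h1.2.2 _ (h1.2.1 _ h1.1)).2, Gp_st t h,
      fun _ => rfl, Nat.zero_le _, Or.inl h1.1⟩
  · rcases hg with ⟨f, hf, e⟩ | ⟨e, he, g', hg', e'⟩
    · exact ⟨f, 0, _, e, (h1.2.2 f hf).2, Gp_st t h, fun _ => rfl, Nat.zero_le _,
        Or.inr (Nat.pos_of_ne_zero h0)⟩
    · exact ⟨e, b, g', e', (h1.2.2 e (h1.2.1 e he)).2, hg', fun h => absurd h h0, le_rfl,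
        Or.inl he⟩

lemma Gp_cross (h₁ h₂ h₃ t : ℕ) : ∀ (b₁ b₂ b₃ : ℕ) (g₁ g₂ g₃ κ : ℤ), -1 ≤ κ → κ ≤ 1 →
    Gp t h₁ g₁ → (b₁ = 0 → g₁ = st t h₁) → Gp t h₂ g₂ → (b₂ = 0 → g₂ = st t h₂) →
    Gp t h₃ g₃ → (b₃ = 0 → g₃ = st t h₃) → b₁ + b₂ + b₃ < nkill h₁ h₂ h₃ t →
    g₁ + g₃ + κ ≠ 2 * g₂ := by
  induction t with
  | zero => intro b₁ b₂ b₃ _ _ _ _ _ _ _ _ _ _ _ _ h; exact absurd h (Nat.not_lt_zero _)
  | succ t ih =>
    intro b₁ b₂ b₃ g₁ g₂ g₃ κ k0 k1 p₁ q₁ p₂ q₂ p₃ q₃ hlt e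
    obtain ⟨d₁, c₁, f₁, rfl, l₁, r₁, s₁, u₁, v₁⟩ := Gp_dec' p₁ q₁
    obtain ⟨d₂, c₂, f₂, rfl, l₂, r₂, s₂, u₂, v₂⟩ := Gp_dec' p₂ q₂
    obtain ⟨d₃, c₃, f₃, rfl, l₃, r₃, s₃, u₃, v₃⟩ := Gp_dec' p₃ q₃
    refine ih c₁ c₂ c₃ f₁ f₂ f₃ (2 * f₂ - f₁ - f₃) (by omega) (by omega) r₁ s₁ r₂ s₂ r₃ s₃ ?_
      (by ring)
    rw [nkill] at hlt
    split_ifs at hlt with hk
    · by_contra hc
      have w₁ : d₁ ∈ EL (role t h₁) := v₁.resolve_right (by omega)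
      have w₂ : d₂ ∈ EL (role t h₂) := v₂.resolve_right (by omega)
      have w₃ : d₃ ∈ EL (role t h₃) := v₃.resolve_right (by omega)
      simp only [kill, Bool.and_eq_true, Bool.or_eq_true, beq_iff_eq] at hk
      obtain ⟨x₂, ⟨x₁, x₃⟩ | ⟨x₁, x₃⟩⟩ := hk
      · rw [x₁] at w₁; rw [x₂] at w₂; rw [x₃] at w₃
        exact dig5 d₁ w₁ d₂ w₂ d₃ w₃ (κ + 1).toNat (by omega) (by omega)
      · rw [x₁] at w₁; rw [x₂] at w₂; rw [x₃] at w₃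
        exact dig5 d₃ w₃ d₂ w₂ d₁ w₁ (κ + 1).toNat (by omega) (by omega)
    · omega

attribute [irreducible] Gp

end Pool.Agent.Lib.MP_f77c7f_co
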