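import Pool.Agent.Lib.MP_f77c7f_co.H25Abs
import Pool.Agent.Lib.MP_f77c7f_co.H25Head
import Pool.Agent.Lib.MP_f77c7f_co.H25Check

/-!
# The concrete head and the concrete data
-/

namespace Pool.Agent.Lib.MP_f77c7f_co

/-- the classes modulo `9` used by the head -/
def cls : List ℕ := [1, 3, 4, 5, 6, 7]

/-- the pattern modulo `61` carried by a class -/
def lab (h : ℕ) : List ℕ :=
  if h ≤ 3 then [0, 29, 30, 34, 40, 41, 43, 54, 55, 83, 94, 120]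
  else [0, 2, 11, 15, 24, 31, 35, 40, 42, 64, 71, 75, 90]

/-- a small shift -/
def mu (h : ℕ) : ℕ := if h = 7 then 1 else 0

/-- the translation making `0` the least element -/
def L4 : ℕ := 12503818007806189168029226026671044312

lemma YL_spec : ∀ y ∈ YL, ∃ h ∈ cls, ∃ p ∈ lab h,
    y + L4 = h + 9 * (mu h + p + 183 * st 16 h) := by
  decide +kernel

lemma YL_spec' : ∀ h ∈ cls, ∀ p ∈ lab h, ∃ y ∈ YL,
    y + L4 = h + 9 * (mu h + p + 183 * st 16 h) := by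
  decide +kernel

lemma lab_free : ∀ h ∈ cls, ∀ a ∈ lab h, ∀ b ∈ lab h, ∀ c ∈ lab h,
    (a + c) % 61 = (2 * b) % 61 → a = b ∧ c = b := by
  decide +kernel

lemma lab_bd : ∀ h ∈ cls, h < 9 ∧ Lam h ≤ 5 ∧ ∀ p ∈ lab h, mu h + p + 61 < 183 := by
  decide +kernel

lemma cls_kill : ∀ h₁ ∈ cls, ∀ h₂ ∈ cls, ∀ h₃ ∈ cls, (h₁ + h₃) % 9 = (2 * h₂) % 9 →
    (h₁ = h₂ ∧ h₃ = h₂) ∨ 3 < nkill h₁ h₂ h₃ 16 := by
  decide +kernel

lemma zero_mem_YL : 0 ∈ YL := by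
  decide +kernel

lemma VV_eq : (VV : ℤ) = 1647 * 243 ^ 16 := by
  norm_num [VV]

/-- membership in the head -/
def Hp (y : ℤ) : Prop :=
  ∃ h ∈ cls, ∃ p ∈ lab h, ∃ ε : ℤ, (ε = 0 ∨ ε = 1) ∧ ∃ g, Gp 16 h g ∧
    y + L4 = h + 9 * (mu h + p + 61 * (ε + 3 * g))

lemma Hp_Y {y : ℤ} (hy : Hp y) : ∃ y₀ ∈ YL, ∃ γ : ℤ, 0 ≤ γ ∧ y = y₀ + 549 * γ := by
  obtain ⟨h, hh, p, hp, ε, hε, g, hg, e⟩ := hy
  obtain ⟨y₀, hy₀, e₀⟩ := YL_spec' h hh p hp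
  have h1 := (Gp_bd hg).1
  exact ⟨y₀, hy₀, ε + 3 * (g - st 16 h), by omega, by omega⟩

lemma Hp_bd {y : ℤ} (hy : Hp y) : 0 ≤ y ∧ 2 * y ≤ 549 * 3 ^ 94 + 11 * (VV : ℤ) := by
  constructor
  · obtain ⟨y₀, -, γ, h, rfl⟩ := Hp_Y hy
    omega
  · obtain ⟨h, hh, p, hp, ε, hε, g, hg, e⟩ := hy
    have h1 := (Gp_bd hg).2
    obtain ⟨h2, h3, h4⟩ := lab_bd h hh
    have h5 := h4 p hp
    rw [VV_eq]
    norm_num at h1 ⊢
    omega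

lemma Hp_finite : {y | Hp y}.Finite :=
  (Set.finite_Icc 0 (549 * 3 ^ 94 + 11 * (VV : ℤ))).subset fun y hy => by
    have := Hp_bd hy
    constructor <;> omega

lemma carry_bd {u₁ u₂ u₃ κ : ℤ} (h₁ : 0 ≤ u₁ ∧ u₁ < 1647) (h₂ : 0 ≤ u₂ ∧ u₂ < 1647)
    (h₃ : 0 ≤ u₃ ∧ u₃ < 1647) (e : u₁ + u₃ - 2 * u₂ = 1647 * κ) : -1 ≤ κ ∧ κ ≤ 1 := by
  omega

lemma mod_of_eq {a b c : ℕ} {u : ℤ} (h : (a : ℤ) + c - 2 * b = 61 * u) :
    (a + c) % 61 = (2 * b) % 61 := by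
  omega

lemma eps_eq {a b c u : ℤ} (ha : a = 0 ∨ a = 1) (hb : b = 0 ∨ b = 1) (hc : c = 0 ∨ c = 1)
    (h : a + c - 2 * b = 3 * u) : a = b ∧ u = 0 := by
  omega

lemma Hp_free {a b c : ℤ} (ha : Hp a) (hb : Hp b) (hc : Hp c) (e : a + c = 2 * b) : a = b := by
  obtain ⟨h₁, k₁, p₁, q₁, ε₁, r₁, g₁, s₁, e₁⟩ := ha
  obtain ⟨h₂, k₂, p₂, q₂, ε₂, r₂, g₂, s₂, e₂⟩ := hb
  obtain ⟨h₃, k₃, p₃, q₃, ε₃, r₃, g₃, s₃, e₃⟩ := hc
  rcases cls_kill h₁ k₁ h₂ k₂ h₃ k₃ (by omega) with ⟨x₁, x₃⟩ | hk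
  · subst x₁ x₃
    have f : (p₁ : ℤ) + p₃ - 2 * p₂ =
        61 * (2 * (ε₂ + 3 * g₂) - (ε₁ + 3 * g₁) - (ε₃ + 3 * g₃)) := by linarith
    obtain ⟨y₁, y₃⟩ := lab_free _ k₁ p₁ q₁ p₂ q₂ p₃ q₃ (mod_of_eq f)
    subst y₁ y₃
    obtain ⟨f₁, f₂⟩ := eps_eq r₁ r₂ r₃ (u := 2 * g₂ - g₁ - g₃) (by linarith)
    have f₃ := Gp_free s₁ s₂ s₃ (by linarith)
    linarith
  · exfalso
    obtain ⟨a₁, -, b₁⟩ := lab_bd h₁ k₁
    obtain ⟨a₂, -, b₂⟩ := lab_bd h₂ k₂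
    obtain ⟨a₃, -, b₃⟩ := lab_bd h₃ k₃
    have c₁ := b₁ p₁ q₁
    have c₂ := b₂ p₂ q₂
    have c₃ := b₃ p₃ q₃
    have d₁ : 0 ≤ ε₁ ∧ ε₁ ≤ 1 := by rcases r₁ with rfl | rfl <;> norm_num
    have d₂ : 0 ≤ ε₂ ∧ ε₂ ≤ 1 := by rcases r₂ with rfl | rfl <;> norm_num
    have d₃ : 0 ≤ ε₃ ∧ ε₃ ≤ 1 := by rcases r₃ with rfl | rfl <;> norm_num
    clear r₁ r₂ r₃
    have key := carry_bd (u₁ := h₁ + 9 * (mu h₁ + p₁ + 61 * ε₁))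
      (u₂ := h₂ + 9 * (mu h₂ + p₂ + 61 * ε₂)) (u₃ := h₃ + 9 * (mu h₃ + p₃ + 61 * ε₃))
      (κ := 2 * g₂ - g₁ - g₃) (by omega) (by omega) (by omega) (by linarith)
    exact Gp_cross h₁ h₂ h₃ 16 1 1 1 g₁ g₂ g₃ (2 * g₂ - g₁ - g₃) key.1 key.2
      s₁ (fun h => absurd h one_ne_zero) s₂ (fun h => absurd h one_ne_zero) s₃
      (fun h => absurd h one_ne_zero) hk (by ring)

lemma Hp_cov {y : ℕ} (hy : y ∈ YL) {m : ℤ} (h0 : 0 ≤ m)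
    (h1 : 2 * (549 * m) ≤ 3 * (549 * 3 ^ 94) - 3 * (VV : ℤ)) :
    ∃ γ, Hp (y + 549 * γ) ∧ ∃ c ∈ Can 94, m = γ + 2 * c := by
  obtain ⟨h, hh, p, hp, e⟩ := YL_spec y hy
  rw [VV_eq] at h1
  norm_num at h1
  obtain ⟨g, hg, c, hc, e'⟩ := Gp_cov 16 h (m := m / 3) (by omega) (by norm_num; omega)
  have h2 : ∀ c₀ ∈ Can 1, c₀ + 3 * c ∈ Can 94 := fun c₀ h₀ => by
    have := Can_cast (show 1 + (5 * 16 + 13) = 94 from rfl) (Can_add h₀ hc)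
    rwa [pow_one] at this
  have z0 : (0 : ℤ) ∈ Can 1 := zero_mem_Can 1
  have z1 : (1 : ℤ) ∈ Can 1 := by simpa using Can_high (zero_mem_Can 0)
  have h3 : m % 3 = 0 ∨ m % 3 = 1 ∨ m % 3 = 2 := by omega
  rcases h3 with h3 | h3 | h3
  · exact ⟨3 * (g - st 16 h), ⟨h, hh, p, hp, 0, Or.inl rfl, g, hg, by omega⟩, _, h2 0 z0,
      by omega⟩
  · exact ⟨1 + 3 * (g - st 16 h), ⟨h, hh, p, hp, 1, Or.inr rfl, g, hg, by omega⟩, _, h2 0 z0,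
      by omega⟩
  · exact ⟨3 * (g - st 16 h), ⟨h, hh, p, hp, 0, Or.inl rfl, g, hg, by omega⟩, _, h2 1 z1,
      by omega⟩

/-- a list of naturals as a finite set of integers -/
def toF (l : List ℕ) : Finset ℤ := l.toFinset.image Nat.cast

lemma mem_toF {l : List ℕ} {x : ℤ} : x ∈ toF l ↔ ∃ a ∈ l, x = a := by
  simp only [toF, Finset.mem_image, List.mem_toFinset, eq_comm]

lemma card_toF {l : List ℕ} (h : l.Nodup) : (toF l).card = l.length := by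
  rw [toF, Finset.card_image_of_injective _ Nat.cast_injective, List.toFinset_card_of_nodup h]

lemma thr_int (i : Bool) (x : ℤ) : ∃ y' ∈ SL (!i), ∃ z' ∈ SL (!i), ∃ z ∈ SL i, ∃ y ∈ YL,
    y' ≤ z' ∧ (549 : ℤ) ∣ x - (2 * z' - y') ∧ (549 : ℤ) ∣ 2 * z + gg i - y - x ∧
      (2 * z' - y' : ℤ) ≤ 2 * z + gg i - y := by
  obtain ⟨y', a, z', b, z, c, y, d, h1, h2, h3, h4⟩ := SL_thr i (r := (x % 549).toNat) (by omega)
  exact ⟨y', a, z', b, z, c, y, d, h1, by omega, by omega, by omega⟩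

/-- the data -/
noncomputable def DD : Dat where
  n := 549
  V := VV
  k0 := 94
  S i := toF (SL i)
  g i := gg i
  H := Hp_finite.toFinset
  Y := toF YL
  n_pos := by norm_num
  n_le := by rw [VV_eq]; norm_num
  big := by rw [VV_eq]; norm_num
  S_bd i z hz := by
    obtain ⟨a, ha, rfl⟩ := mem_toF.mp hz
    have := SL_bd i a ha
    omega
  g_bd i := by
    have := gg_bd i
    omega
  H_bd y hy := Hp_bd (Hp_finite.mem_toFinset.mp hy)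
  Y_bd y hy := by
    obtain ⟨a, -, rfl⟩ := mem_toF.mp hy
    omega
  S_free i a ha b hb c hc h := by
    obtain ⟨a, ka, rfl⟩ := mem_toF.mp ha
    obtain ⟨b, kb, rfl⟩ := mem_toF.mp hb
    obtain ⟨c, kc, rfl⟩ := mem_toF.mp hc
    have := SL_free i ka kb kc (by omega)
    omega
  cross i j x := by
    by_cases hij : j = !i
    · subst hij
      obtain ⟨z, hz, y, hy, e⟩ := SL_cross i (r := (x % 549).toNat) (by omega)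
      exact ⟨z, mem_toF.mpr ⟨z, hz, rfl⟩, y, mem_toF.mpr ⟨y, hy, rfl⟩, by omega⟩
    · have hj : j = i := by cases i <;> cases j <;> simp_all
      subst hj
      obtain ⟨y', a, z', b, -, -, -, -, -, h2, -⟩ := thr_int (!j) x
      rw [Bool.not_not] at a b
      exact ⟨z', mem_toF.mpr ⟨z', b, rfl⟩, y', mem_toF.mpr ⟨y', a, rfl⟩, by omega⟩
  thr i x := by
    obtain ⟨y', a, z', b, z, c, y, d, h1, h2, h3, h4⟩ := thr_int i x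
    refine ⟨2 * z' - y', h2, ?_, z, mem_toF.mpr ⟨z, c, rfl⟩, y, mem_toF.mpr ⟨y, d, rfl⟩, h3, h4⟩
    rcases h1.eq_or_lt with h | h
    · exact Or.inl (mem_toF.mpr ⟨z', b, by omega⟩)
    · exact Or.inr ⟨y', mem_toF.mpr ⟨y', a, rfl⟩, z', mem_toF.mpr ⟨z', b, rfl⟩, by omega, rfl⟩
  nohit i z hz x hx y hy h := by
    obtain ⟨z, kz, rfl⟩ := mem_toF.mp hz
    obtain ⟨x, kx, rfl⟩ := mem_toF.mp hx
    obtain ⟨y₀, ky, γ, hγ, rfl⟩ := Hp_Y (Hp_finite.mem_toFinset.mp hy)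
    have := SL_hit i kz ky kx (by omega)
    omega
  H_cov y hy m h0 h1 := by
    obtain ⟨y, ky, rfl⟩ := mem_toF.mp hy
    obtain ⟨γ, hγ, hc⟩ := Hp_cov ky h0 h1
    exact ⟨γ, Hp_finite.mem_toFinset.mpr hγ, hc⟩
  H_free a ha b hb c hc h := Hp_free (Hp_finite.mem_toFinset.mp ha)
    (Hp_finite.mem_toFinset.mp hb) (Hp_finite.mem_toFinset.mp hc) h

lemma DD_card (i : Bool) : (DD.S i).card = 50 + i.toNat :=
  (card_toF (SL_nodup i)).trans (SL_len i)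

lemma DD_zero : (0 : ℤ) ∈ DD.H := by
  obtain ⟨h, hh, p, hp, e⟩ := YL_spec 0 zero_mem_YL
  exact Hp_finite.mem_toFinset.mpr ⟨h, hh, p, hp, 0, Or.inl rfl, _, Gp_st 16 h, by omega⟩

end Pool.Agent.Lib.MP_f77c7f_co
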